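import Mathlib
import Pool.Agent.TH216.LR.Lr8

/-!
# The motivic monodromy conjecture at the origin for all polynomials with affinely independent
# exponents

Let `f = ∑_j c_j x ^ (m j)` be a polynomial in `n` variables over a field `k ⊂ ℂ`, `f(0) = 0`, with at
least one monomial and `c_j ≠ 0`, whose exponent vectors are affinely independent. There is NO
condition on the exponents: `B1`-facets, non-isolated singularities and monomial factors are all
allowed. Then the local motivic zeta function of `f` at the origin,
`𝕃 ^ (-n) ∑_{N ≥ 1} [𝒳_N] (𝕃 ^ (-n) T) ^ N` with `𝒳_N` the `N`-jets with origin `0` on which `f`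
has order `N`, lies in the ring generated by `T` and finitely many `1 / (1 - 𝕃 ^ a T ^ b)` with
`a < 0 < b` and `a / b` a root of the local Bernstein-Sato polynomial of `f` at the origin; by the
theorem of Malgrange and Kashiwara `exp(2 π i a / b)` is then a monodromy eigenvalue of `f` at points
of `{f = 0}` arbitrarily near to `0`.

Method. Expanding the powers of `f`, the functional equation of the local Bernstein-Sato polynomial
becomes an identity in the ring `ℂ[X_1, …, X_k]` (`X_j` counts the `j`-th monomial), with additional
terms from the power series coefficients of the operator. It is turned into a multiplicative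
identity for the series `∑_u q ^ (-|u|) F (⟨u, m_1⟩ - t, …, ⟨u, m_k⟩ - t)`, `F` a difference polynomial
applied to the Heaviside function of the orthant, for every integer `q ≥ 2`. The additional terms
vanish only for the points `u` with all coordinates `≥ λ`, `λ` large. So the series over the points
with `u_i ≥ λ` have no poles on `log |T| / log q = σ` if `b_{f,0}(-σ) ≠ 0` and `λ` is large; and as
functions of `λ ≥ 1` these series satisfy a linear recurrence whose last coefficient is a unit,
from a decomposition of the rational cones of the pairs `(u, λ)` into simplicial pieces; so this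
holds for `λ = 1`. On the other side, the classes of the zero sets of the face polynomials in the
tori satisfy linear relations, one for each variable which has exponent `1` in one monomial of a
face and does not occur in the others; so the local zeta function is a combination of universal
series in `q ^ (-1)` and `T`, in which `q` can be replaced by `𝕃`.
-/

set_option autoImplicit false

namespace Pool.Agent.Results.MP_9321be_ag.AffinelyIndependentLocal

open MvPolynomial Pool.Agent.W428.MOT Pool.Agent.W375.MG Pool.Agent.W749.NM

/-- **The motivic monodromy conjecture at the origin (Bernstein-Sato form) for all polynomials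
with affinely independent exponents.**

`zetaN f 0` is `𝕃 ^ (-n) ∑_{N ≥ 1} [𝒳_N] 𝕃 ^ (-n N) T ^ N`, `𝒳_N` as above, over any extension field `K`
of `k`. `IsLocalBFunction f b` says that `b(s) f ^ s = P(s) f ^ (s + 1)` for a differential operator
`P(s)` with (formal, in particular convergent) power series at the origin as coefficients. The
Bernstein-Sato polynomial `b_{f,0}` is the monic one of least degree of these polynomials (for
convergent power series). -/
theorem result (k : Type) [Field k] [Algebra k ℂ] {n r : ℕ} (hr : 1 ≤ r) (m : Fin r → Fin n → ℕ)
    (hm : AffineIndependent ℚ (fun (j : Fin r) (i : Fin n) => (m j i : ℚ)))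
    (h0 : ∀ j, m j ≠ 0) (c : Fin r → k) (hc : ∀ j, c j ≠ 0) :
    ∃ S : Finset (ℤ × ℤ),
      (∀ p ∈ S, p.1 < 0 ∧ 0 < p.2 ∧ ∀ b : Polynomial ℂ,
        Pool.Agent.H628R4.TP.IsLocalBFunction
          (∑ j, C (algebraMap k ℂ (c j)) * ∏ i, X i ^ m j i : MvPolynomial (Fin n) ℂ) b →
            b.eval ((p.1 : ℂ) / p.2) = 0) ∧
      ∀ (K : Type) [Field K] [Algebra k K],
        zetaN (∑ j, C (algebraMap k K (c j)) * ∏ i, X i ^ m j i : MvPolynomial (Fin n) K) 0 ∈
          ratRing K S := by
  obtain ⟨S, hS, hz⟩ := Pool.Agent.TH216.LR.ind_loc (k := k) hr m hm h0 c hc
  exact ⟨S, hS, fun K _ _ => Pool.Agent.TH216.LR.zetaN_mem0 _ _ (hz K {a | a ≠ 0} good_units)⟩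

end Pool.Agent.Results.MP_9321be_ag.AffinelyIndependentLocal
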