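import Pool.Agent.TH192.MT.IdJet

set_option autoImplicit false

/-! # The motivic monodromy conjecture at the origin for forms over determinantal ideals

Let `x` be the generic matrix of one of the three spaces `S` of matrices: all `m × n` matrices, the
symmetric `n × n` matrices, the skew symmetric `n × n` matrices (`MSpace`). For `t < T` let
`F_t = ∑_j y_{t,j} M_j(x)`, where the `M_j` are the `p t`-minors of `x` (the Pfaffians of size
`2 (p t)` in the skew symmetric case), `p t < min (m, n)`, `p t < n`, or `2 (p t) + 1 < n`
(`Small`), and the `y_{t,j}` are further variables, separate for each `t`. Let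
`f = ∏ t, F_t ^ a t`, `a t > 0` (`detForm`, with integral coefficients).

The local motivic zeta function `𝕃 ^ (-n) ∑_{l ≥ 1} [𝒳_l^0] 𝕃 ^ (-n l) T ^ l` (`zetaO`), `𝒳_l^0` the
set of the `l`-jets `φ` with `φ(0) = 0` and `ord_t f(φ) = l`, is defined with the jets, in the
Grothendieck ring of complex varieties, localised at `𝕃`. No resolution is used: the jets are
divided by the orders of the ideals of the minors; where an entry (or, for symmetric and skew
symmetric matrices, a principal minor of size `1` or `2`) is a unit, the Schur complement reduces
to a smaller matrix; where `x(0) = 0` one divides by `t`, which gives the denominators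
`1 - 𝕃 ^ (-ν_d) T ^ (N_d)`, `ν_d` the codimension of the matrices of rank `≤ d` (`≤ 2 d`),
`N_d = ∑ t, a t max (p t - d, 0)`; the linear conditions on the jets of `y` give the denominators
`1 - 𝕃 ^ (-1) T ^ (a t)`.

The proof for the roots: a functional equation of `f` gives a functional equation of the product of
the powers `I_t ^ a t` of the ideals of the minors, with the same `b` (`locEq_of_powProd`; for one
form and `a = 1` this is one direction of a theorem of Mustata, 2019), and the exceptional divisors
over the rank loci are Rees divisors of this ideal; the roots `-1 / a t` come from the strict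
transforms (`strict_root`). -/

namespace Pool.Agent.Results.MP_9321be_ag.DeterminantalFormsLocal

open MvPolynomial Pool.Agent.H628R4.TP Pool.Agent.TH192.DT Pool.Agent.TH192.MT
  Pool.Agent.W428.MOT

/-- **The motivic monodromy conjecture at the origin for `f = ∏ t, F_t ^ a t`**, `F_t` the forms with
the minors of size `p t` of a generic, symmetric or skew symmetric matrix as coefficients. The
finite set `formPairs S p a` of the pairs `(-ν_d, N_d)` and `(-1, a t)` has the two properties: for
the pairs `(c, e)` in it, `c / e` is a root of every `b` which satisfies a functional equation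
`b(s) f ^ s = P(s) f ^ (s + 1)`, where `P(s)` is a differential operator with formal power series
coefficients at the origin, in particular of the local Bernstein-Sato polynomial of `f` at the
origin (by the theorem of Malgrange and Kashiwara, `exp(2 π i c / e)` is a monodromy eigenvalue of
`f` at a point in each neighbourhood of the origin); and the local motivic zeta function of `f` lies
in the ring generated by `T` and the `1 / (1 - 𝕃 ^ c T ^ e)`. -/
theorem result (S : MSpace) (T : ℕ) (p a : Fin T → ℕ) (hp : ∀ t, S.Small (p t))
    (ha : ∀ t, 0 < a t) :
    (∀ q ∈ formPairs S p a, q.1 < 0 ∧ 0 < q.2 ∧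
      ∀ b : Polynomial ℂ, IsLocalBFunction (map (Int.castRingHom ℂ) (detForm S p a)) b →
        b.eval ((q.1 : ℂ) / q.2) = 0) ∧
    zetaO (map (Int.castRingHom ℂ) (detForm S p a)) ∈
      ratRing ℂ (formPairs S p a : Set (ℤ × ℤ)) :=
  ⟨fun q hq => ⟨(form_roots S T p a hp ha q hq).1, (form_roots S T p a hp ha q hq).2.1,
    (form_roots S T p a hp ha q hq).2.2.2⟩, zetaO_mem S T p a hp ha⟩

end Pool.Agent.Results.MP_9321be_ag.DeterminantalFormsLocal
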