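import Mathlib
import Pool.Agent.TH216.LX.F2
import Pool.Agent.TH216.LR.Lr8

/-!
# The motivic monodromy conjecture at the origin for generic coefficients at the vertices

Let `f = ∑_j c_j x ^ (v j) + h` be a polynomial in `n` variables over a field `k ⊂ ℂ`, where `h` is an
ARBITRARY polynomial over a subfield `F ⊂ k` (`k = F = ℂ` is allowed), whose exponents are in the
Newton polyhedron `conv {v j} + ℝ_{≥ 0} ^ n`, and the coefficients `c_j ∈ k` are generic: `g(c) ≠ 0` for
a certain nonzero polynomial `g` with coefficients in `F`. So for given `h` only the coefficients at
the vertices `v j` have to be generic. If `n ≤ 3` and the `v j` are the vertices of the Newton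
polyhedron, there is no further condition. If `n = 4` and the `v j` are the vertices, we suppose that every facet is a simplex or `B1` in some
direction, or that its candidate pole `- |a| / N_a` is `-1` or comes also from a facet which contains a
suitable simplex which is not B1. In general we suppose for the other candidate poles that the facets
through a common face, if the face is not a simplex and they all have this candidate pole, are `B1` in
a common direction; for instance that the Newton polyhedron is simplicial and the `v j` are its
vertices.
There is no condition on the exponents of `h` on the facets. Then the local motivic zeta function of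
`f` at the origin,
`𝕃 ^ (-n) ∑_{N ≥ 1} [𝒳_N] (𝕃 ^ (-n) T) ^ N` with `𝒳_N` the `N`-jets with origin `0` on which `f`
has order `N`, lies in the ring generated by `T` and finitely many `1 / (1 - 𝕃 ^ a T ^ b)` with
`a < 0 < b` and `a / b` a root of the local Bernstein-Sato polynomial of `f` at the origin; by the
theorem of Malgrange and Kashiwara `exp(2 π i a / b)` is then a monodromy eigenvalue of `f` at points
of `{f = 0}` arbitrarily near to `0`.

Method. If the `c_j` are algebraically independent over `F`, the functional equation of the
Bernstein-Sato polynomial gives an identity in a polynomial ring with one variable for every `v j`.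
It is turned into a multiplicative identity for the series
`∑_u q ^ (-|u|) F (⟨u, v_1⟩ - t, …, ⟨u, v_k⟩ - t)`, `F` a difference polynomial applied to the
Heaviside function of the orthant, for every integer `q ≥ 2`. On the other side, for the arcs with
origin `0` only the points `u` with all `u i > 0` occur, which see only exponents of `h` in the convex
hull of the `v j`; and the classes of the zero sets of the face polynomials in the tori satisfy
linear relations, one for each variable which has exponent `1` in one monomial of a face and does not
occur in the others; so the zeta function is a combination of universal series in `q ^ (-1)` and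
`T`. The multiplicative identity shows that for every `q ≥ 2` these universal series have no poles
on `log |T| / log q = σ` if `-σ` is not a root, hence that the factors `1 - q ^ (-a) T ^ N` with
`a / N = σ` cancel identically, and `q` can be replaced by `𝕃`. Gröbner bases in the Weyl algebra over
`F(c_1, …, c_r)` compare the generic Bernstein-Sato polynomial with the one of a single member.
-/

set_option autoImplicit false

namespace Pool.Agent.Results.MP_9321be_ag.GenericVerticesLocal

open MvPolynomial Pool.Agent.W428.MOT Pool.Agent.W425.MM Pool.Agent.W749.NM
open Pool.Agent.TH216.HD Pool.Agent.TH216.HDL Pool.Agent.TH216.HDF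

/-- **The motivic monodromy conjecture at the origin (Bernstein-Sato form) for the polynomials
`f = ∑_j c_j x ^ (v j) + h` with generic coefficients `c_j`: all Newton polyhedra for `n ≤ 3`, simplices
and `B1`-facets for `n = 4`, simplices and `B1`-facets with compatible directions for `n ≥ 5`.**

`poly v c h` is the polynomial `f = ∑_j c_j x ^ (v j) + h`. `InPoly v w` says that `w` is in the Newton
polyhedron `conv {v j} + ℝ_{≥ 0} ^ n`. `Vertices v` says that the `v j` are the vertices of this
polyhedron: no `v j` is in the Newton polyhedron of the other `v k`.

`HypF v` says that one of the following holds: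
(1) `n ≤ 3` and `Vertices v`;
(2) `n = 4`, `Vertices v`, and every ray `a` of the normal fan of the Newton polyhedron (`IsRay v a`)
with `N_a := ordA v a = min_j ⟨a, v j⟩ > 0` satisfies (i), (ii) or (iii);
(3) every such ray `a` satisfies (i), (ii) or (iv), where
* (i) `|a| = N_a` (the candidate pole is `-1`);
* (ii) `|a| / N_a = |a'| / N_{a'}` for some `a' ∈ ℕ ^ n` with `N_{a'} > 0` and `NonB1 v True a'`: there is
  a set `J` of `#{i | a' i ≠ 0}` elements with `⟨a', v j⟩ = N_{a'}` for `j ∈ J` such that the vectors
  `(v j i)_{a' i ≠ 0}`, `j ∈ J`, are linearly independent, such that no variable `x_i` with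
  `a' i ≠ 0` occurs in exactly one of the monomials `x ^ (v j)`, `j ∈ J`, and there with exponent `1`,
  and such that (a condition only if some `a' i = 0`) for all `l` with `⟨a', v l⟩ = N_{a'}`, if `v l`
  agrees with `∑_{j ∈ J} c_j (v j)` in the coordinates `i` with `a' i ≠ 0`, then
  `∑_j c_j s(v j) ≤ s(v l)`, `s(w) = ∑_{a' i = 0} w_i`;
* (iii) the facet of `a` is a simplex (`SimpL v a`): the vectors `(v j i)_{a i ≠ 0}`, for the `j` with
  `⟨a, v j⟩ = N_a`, are linearly independent; or it is B1 in some direction `i` (`B1L v i a`): `a i ≠ 0`,
  and exactly one of the monomials `x ^ (v j)` with `⟨a, v j⟩ = N_a` is divisible by `x_i`, and it is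
  not divisible by `x_i ^ 2`;
* (iv) `LocF v σ` for `σ = lev v a = |a| / N_a`. For a set `A` of variables and a set `τ` of indices `j`
  consider the rays `a'` with `N_{a'} > 0`, `a' i = 0` for `i ∉ A` and `⟨a', v j⟩ = N_{a'}` for `j ∈ τ`
  (`RayAt v A τ a'`). If there are such rays and `|a'| / N_{a'} = σ` for all of them, if every variable
  `x_i`, `i ∈ A`, occurs in some `x ^ (v j)`, `j ∈ τ`, and if the vectors `(v j i)_{i ∈ A}`, `j ∈ τ`, are
  linearly dependent (`Dep v A τ`), then there is one `i` such that the facets of all these rays are B1
  in the direction `i`.

`zetaN f 0` is the local motivic zeta function of the problem. `IsLocalBFunction f b` says that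
`b(s) f ^ s = P(s) f ^ (s + 1)` for a differential operator `P(s)` with (formal, in particular
convergent) power series at the origin as coefficients. The Bernstein-Sato polynomial `b_{f,0}` is
the monic one of least degree of these polynomials (for convergent power series). -/
theorem result (F : Type) [Field F] [Algebra F ℂ] {n r : ℕ} (hr : 0 < r) (v : Fin r → Fin n → ℕ)
    (hv : Function.Injective v) (hv0 : ∀ j, v j ≠ 0)
    (h : MvPolynomial (Fin n) F) (hh : ∀ w ∈ h.support, InPoly v w)
    (hL : HypF v) :
    ∃ g : MvPolynomial (Fin r) F, g ≠ 0 ∧
      ∀ (k : Type) [Field k] [Algebra F k] [Algebra k ℂ] [IsScalarTower F k ℂ] (c : Fin r → k),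
      aeval c g ≠ 0 →
      ∃ S : Finset (ℤ × ℤ),
        (∀ p ∈ S, p.1 < 0 ∧ 0 < p.2 ∧ ∀ b : Polynomial ℂ,
          Pool.Agent.H628R4.TP.IsLocalBFunction (poly v (fun j => algebraMap k ℂ (c j)) h) b →
            b.eval ((p.1 : ℂ) / p.2) = 0) ∧
        ∀ (K : Type) [Field K] [Algebra k K],
          zetaN (MvPolynomial.map (algebraMap k K) (poly v c h)) 0 ∈ ratRing K S := by
  obtain ⟨g, hg, hgz⟩ := Pool.Agent.TH216.LX.genFP (F := F) hr v hv hv0 h hh hL
  refine ⟨g, hg, fun k _ _ _ _ c hc => ?_⟩
  obtain ⟨S, hS, hz⟩ := hgz k c hc
  refine ⟨S, hS, fun K _ _ => Pool.Agent.TH216.LR.zetaN_mem0 _ _ ?_⟩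
  have hW : Constr ({0} : Set (Pt K (Fin n))) := by
    have h1 := constr_pt (K := K) (0 : Fin n → K)
    have e : ({fun i => algebraMap K (AlgebraicClosure K) ((0 : Fin n → K) i)} :
        Set (Pt K (Fin n))) = {0} := by
      congr 1
      funext i
      simp
    rwa [e] at h1
  exact hz K {0} {a | a ≠ 0} hW Pool.Agent.W375.MG.good_units (fun z hz i => by
    rw [Set.mem_singleton_iff.1 hz]
    rfl)

end Pool.Agent.Results.MP_9321be_ag.GenericVerticesLocal
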