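import Mathlib
import Pool.Agent.TH216.ND.Nd4
import Pool.Agent.TH216.LR.Lr8

/-!
# The motivic monodromy conjecture at the origin for nondegenerate polynomials: conditions on the
# vertices

Let `k` be a field, `k ⊂ ℂ`, and let `f = ∑_j c_j x ^ (v j) ∈ k[x_1, …, x_n]`, `f(0) = 0`, `c_j ≠ 0`, be
nondegenerate with respect to its Newton polytope: for every face of the polytope, the face
polynomial and its derivatives have no common zero in the complex torus. No further genericity is
assumed; the number of variables and the singularities are arbitrary (they need not be isolated).

For a facet of the Newton polyhedron with primitive inner normal vector `a ∈ ℕ ^ n` let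
`N_a = min ⟨a, ·⟩ > 0` be its order and `-|a| / N_a` its candidate pole. Every candidate pole is assumed
to be an integer, or to agree modulo integers with the candidate pole of a facet which contains
a suitable simplex which is not of type `B1`, or to satisfy the following: at every vertex, the
facets of the candidate pole through this vertex are simplices or `B1`-facets in a common direction,
which may depend on the vertex. Here only the vertices of the Newton polyhedron count: there is no
condition on the further exponents of `f`, which can be anywhere in the Newton polyhedron. In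
particular all simplicial Newton polyhedra are allowed, and all polyhedra all of whose facets
which are not simplices are `B1`-facets in a common direction. Then the motivic monodromy conjecture
holds for `f` at the origin: the local motivic zeta function
`𝕃 ^ (-n) ∑_{N ≥ 1} [𝒳_N] (𝕃 ^ (-n) T) ^ N`, with `𝒳_N` the `N`-jets with origin `0`
on which `f` has order `N`, lies in the ring generated by `T` and finitely many
`1 / (1 - 𝕃 ^ a T ^ b)` with `a < 0 < b` such that `a / b - i` is a root of the local Bernstein-Sato
polynomial `b_{f,0}` for an integer `i`; by the theorem of Malgrange and Kashiwara `exp(2 π i a / b)`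
is an eigenvalue of the monodromy of `f` at points of `{f = 0}` arbitrarily near to `0`.

Method. The functional equation of the Bernstein-Sato polynomial of `f` is deformed to very general
coefficients (modules over `ℂ⟦τ⟧[s, θ]` with a connection, Kouchnirenko's theorem). It gives an
algebraic relation, which is restricted to the vertices and turned into a multiplicative identity
for the series
`∑_u q ^ (-|u|) F (⟨u, v_1⟩ - t, …, ⟨u, v_k⟩ - t)`, `F` a difference polynomial applied to the Heaviside
function of the orthant, for every integer `q ≥ 2`. On the other side, for arcs with origin `0` only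
the points `u` with all `u i > 0` occur, which see only exponents in the convex hull of the vertices;
and the classes of the zero sets of the face polynomials in the tori satisfy linear relations, one
for each variable which has exponent `1` in one monomial of a face and does not occur in the others;
so the zeta function is a combination of universal series in `q ^ (-1)` and `T`. The multiplicative
identity shows that for every `q ≥ 2` these universal series have no poles on
`log |T| / log q = σ` if no `-σ - i`, `i ∈ ℕ`, is a root, hence that the factors
`1 - q ^ (-a) T ^ N` with `a / N = σ` cancel identically, and `q` can be replaced by `𝕃`.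
-/

set_option autoImplicit false

namespace Pool.Agent.Results.MP_9321be_ag.NondegenerateVerticesLocal

open MvPolynomial Pool.Agent.W428.MOT Pool.Agent.W749.NM Pool.Agent.TH216.HD
open Pool.Agent.TH216.HDNL

/-- **The motivic monodromy conjecture at the origin for all polynomials `f = ∑_j c_j x ^ (v j)` over
`k ⊂ ℂ` which are nondegenerate with respect to their Newton polytope and satisfy `HypVL`.**

`Nondegenerate v c` says that for every face of the convex hull of the `v j` (the face where the
linear form `w ∈ ℝ ^ n` is minimal) the face polynomial and its derivatives `x_i ∂_i` have no common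
zero in `(ℂ \ 0) ^ n`. `V` is a set of exponents of `f` such that all the exponents of `f` are in
`conv {v j, j ∈ V} + ℝ_{≥ 0} ^ n` (`Spans v V`), for instance the set of the vertices of the Newton
polyhedron.

`HypVL v V` says that for every ray `a` of the normal fan of the Newton polyhedron (`IsRay v a`)
with `N_a := ordA v a = min_j ⟨a, v j⟩ > 0` one of the following holds:
* `N_a` divides `|a|` (the candidate pole is an integer);
* `|a| / N_a - |a'| / N_{a'} ∈ ℤ` for some `a' ∈ ℕ ^ n` with `N_{a'} > 0` and `NonB1 v True a'`: there is a
  set `J` of `#{i | a' i ≠ 0}` elements with `⟨a', v j⟩ = N_{a'}` for `j ∈ J` such that the vectors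
  `(v j i)_{a' i ≠ 0}`, `j ∈ J`, are linearly independent, such that no variable `x_i` with
  `a' i ≠ 0` occurs in exactly one of the monomials `x ^ (v j)`, `j ∈ J`, and there with exponent `1`,
  and such that (a condition only if some `a' i = 0`) for all `l` with `⟨a', v l⟩ = N_{a'}`, if `v l`
  agrees with `∑_{j ∈ J} c_j (v j)` in the coordinates `i` with `a' i ≠ 0`, then
  `∑_j c_j s(v j) ≤ s(v l)`, `s(w) = ∑_{a' i = 0} w_i`;
* `LocVL v V σ` for `σ = lev v a = |a| / N_a`: for every `j1 ∈ V` there is a variable `x_i` such that
  each of the rays `a'` with `N_{a'} > 0`, `|a'| / N_{a'} = σ` and `⟨a', v j1⟩ = N_{a'}` (the facets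
  through `v j1`) satisfies one of
  - its facet is a simplex (`SimpVL v V a'`): the vectors `(v j i)_{a' i ≠ 0}`, for the `j ∈ V` with
    `⟨a', v j⟩ = N_{a'}`, are linearly independent;
  - it is B1 in the direction `i` (`B1VL v V i a'`): `a' i ≠ 0`, and exactly one of the monomials
    `x ^ (v j)`, `j ∈ V`, with `⟨a', v j⟩ = N_{a'}` is divisible by `x_i`, and it is not divisible by
    `x_i ^ 2`.

`IsLocalBFunction f b` says that `b(s) f ^ s = P(s) f ^ (s + 1)` for a differential operator `P(s)`
with (formal, in particular convergent) power series at the origin as coefficients. The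
Bernstein-Sato polynomial `b_{f,0}` is the monic one of least degree of these polynomials (for
convergent power series). `zetaN f 0` is the local motivic zeta function of the problem. The finite
set `S` is the same for all the fields `K` which contain `k`. -/
theorem result (k : Type) [Field k] [Algebra k ℂ] {n r : ℕ} (hr : 0 < r)
    (v : Fin r → Fin n → ℕ) (c : Fin r → k) (hv : Function.Injective v) (hv0 : ∀ j, v j ≠ 0)
    (hc : ∀ j, c j ≠ 0) (hnd : Nondegenerate v (fun j => algebraMap k ℂ (c j)))
    (V : Finset (Fin r)) (hV : Spans v V) (hL : HypVL v V) :
    ∃ S : Finset (ℤ × ℤ),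
      (∀ p ∈ S, p.1 < 0 ∧ 0 < p.2 ∧ ∀ b : Polynomial ℂ,
        Pool.Agent.H628R4.TP.IsLocalBFunction
          (∑ j, C (algebraMap k ℂ (c j)) * ∏ i, X i ^ v j i) b →
          ∃ i : ℤ, b.eval ((p.1 : ℂ) / p.2 - i) = 0) ∧
      ∀ (K : Type) [Field K] [Algebra k K],
        zetaN (∑ j, C (algebraMap k K (c j)) * ∏ i, X i ^ v j i) 0 ∈ ratRing K S := by
  obtain ⟨S, hS, hz⟩ := Pool.Agent.TH216.ND.nd_motX hr v hv c hc hnd V hV hL
  refine ⟨S, fun p hp => ⟨(hS p hp).1, (hS p hp).2.1, fun b hb => ?_⟩, fun K _ _ => ?_⟩
  · obtain ⟨h1, h2⟩ := Pool.Agent.W425.MM.of_local v (by omega) _ hv hv0 hnd b hb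
    exact (hS p hp).2.2 b h1 h2
  · refine Pool.Agent.TH216.LR.zetaN_mem0 _ _ ?_
    have hW : Constr ({0} : Set (Pt K (Fin n))) := by
      have h1 := Pool.Agent.W425.MM.constr_pt (K := K) (0 : Fin n → K)
      have e : ({fun i => algebraMap K (AlgebraicClosure K) ((0 : Fin n → K) i)} :
          Set (Pt K (Fin n))) = {0} := by
        congr 1
        funext i
        simp
      rwa [e] at h1
    exact hz K {0} {a | a ≠ 0} hW Pool.Agent.W375.MG.good_units (fun z hz i => by
      rw [Set.mem_singleton_iff.1 hz]
      rfl)

end Pool.Agent.Results.MP_9321be_ag.NondegenerateVerticesLocal
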